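import Mathlib

/-!
# Local search allocation: adding an edge can increase the maximum load stochastically

For `G = K_{2,3}` on `Fin 5` (hubs `0` and `4`, leaves `1, 2, 3`) and `G' = G + {0,4}`,
the probability that the maximum load after `4` balls is at least `2` is strictly larger
on `G'` than on `G`.  This disproves Q1 of `MP_61ae3e_pr`.
-/

namespace Pool.Agent.Results.MP_61ae3e_pr.EdgeAddRaisesMax

open scoped ENNReal
open Classical in
/-- The neighbours of `v` of minimum load (among the neighbours of `v`). -/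
noncomputable def minNbrs {V : Type} [Fintype V] (G : SimpleGraph V) (X : V → ℕ) (v : V) :
    Finset V :=
  Finset.univ.filter (fun u => G.Adj v u ∧ ∀ w, G.Adj v w → X u ≤ X w)

theorem minNbrs_nonempty {V : Type} [Fintype V] (G : SimpleGraph V) (X : V → ℕ) (v : V)
    (h : ∃ u, G.Adj v u ∧ X u < X v) : (minNbrs G X v).Nonempty := by
  classical
  obtain ⟨u, hu, _⟩ := h
  obtain ⟨w, hw, hmin⟩ := Finset.exists_min_image (Finset.univ.filter (fun u => G.Adj v u)) X
    ⟨u, by simp [hu]⟩
  refine ⟨w, ?_⟩
  simp only [minNbrs, Finset.mem_filter, Finset.mem_univ, true_and] at hw ⊢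
  exact ⟨hw, fun z hz => hmin z (by simp [hz])⟩

open Classical in
/-- One step of a ball at `v` (loads frozen at `X`): if `v` has a neighbour of strictly smaller
load, the ball moves to a uniformly random neighbour of minimum load; otherwise it stays. -/
noncomputable def step {V : Type} [Fintype V] (G : SimpleGraph V) (X : V → ℕ) (v : V) : PMF V :=
  if h : ∃ u, G.Adj v u ∧ X u < X v then
    PMF.uniformOfFinset (minNbrs G X v) (minNbrs_nonempty G X v h)
  else PMF.pure v

/-- The position of the ball after `k` steps, started at `v`. -/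
noncomputable def steps {V : Type} [Fintype V] (G : SimpleGraph V) (X : V → ℕ) :
    ℕ → V → PMF V
  | 0, v => PMF.pure v
  | k + 1, v => (step G X v).bind (steps G X k)

/-- The vertex on which a ball born at `v` is placed.  Every proper move lowers the load of the
current vertex by at least one and a ball at a local minimum stays there forever, so after `X v`
steps the ball has come to rest (see `place_local_min`). -/
noncomputable def place {V : Type} [Fintype V] (G : SimpleGraph V) (X : V → ℕ) (v : V) : PMF V :=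
  steps G X (X v) v

/-- The law of the load vector after `m` balls. -/
noncomputable def loads {V : Type} [Fintype V] [Nonempty V] [DecidableEq V]
    (G : SimpleGraph V) : ℕ → PMF (V → ℕ)
  | 0 => PMF.pure 0
  | m + 1 => (loads G m).bind fun X =>
      (PMF.uniformOfFintype V).bind fun u =>
        (place G X u).map fun v => Function.update X v (X v + 1)

/-- The probability that the maximum load after `m` balls is at least `ℓ`
(for `ℓ ≤ 0` this is `1`). -/
noncomputable def probMaxGe {V : Type} [Fintype V] [Nonempty V] [DecidableEq V]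
    (G : SimpleGraph V) (m : ℕ) (l : ℤ) : ℝ≥0∞ :=
  (loads G m).toOuterMeasure {X : V → ℕ | l ≤ ((Finset.univ.sup X : ℕ) : ℤ)}

/-! ### Sanity lemmas: the ball always comes to rest at a local minimum -/

theorem mem_support_step {V : Type} [Fintype V] (G : SimpleGraph V) (X : V → ℕ) (v u : V)
    (hu : u ∈ (step G X v).support) :
    (X u < X v) ∨ (u = v ∧ ∀ w, G.Adj v w → X v ≤ X w) := by
  classical
  unfold step at hu
  split_ifs at hu with h
  · left
    rw [PMF.support_uniformOfFinset] at hu
    simp only [minNbrs, Finset.coe_filter, Finset.mem_univ, true_and, Set.mem_ofPred_eq] at hu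
    obtain ⟨w, hw, hlt⟩ := h
    exact lt_of_le_of_lt (hu.2 w hw) hlt
  · right
    rw [PMF.support_pure] at hu
    refine ⟨hu, fun w hw => ?_⟩
    by_contra hc
    exact h ⟨w, hw, not_le.mp hc⟩

theorem mem_support_steps {V : Type} [Fintype V] (G : SimpleGraph V) (X : V → ℕ) (k : ℕ) :
    ∀ v u : V, X v ≤ k → u ∈ (steps G X k v).support → ∀ w, G.Adj u w → X u ≤ X w := by
  induction k with
  | zero =>
    intro v u hk hu w _
    have : u = v := by simpa [steps] using hu
    subst this
    omega
  | succ k ih =>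
    intro v u hk hu
    simp only [steps, PMF.mem_support_bind_iff] at hu
    obtain ⟨y, hy, hu⟩ := hu
    rcases mem_support_step G X v y hy with h | ⟨h1, h2⟩
    · exact ih y u (by omega) hu
    · subst h1
      have key : ∀ j : ℕ, ∀ u : V, u ∈ (steps G X j y).support → u = y := by
        intro j
        induction j with
        | zero => intro u hu'; simpa [steps] using hu'
        | succ j ihj =>
          intro u' hu'
          simp only [steps, PMF.mem_support_bind_iff] at hu'
          obtain ⟨z, hz, hz2⟩ := hu'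
          rcases mem_support_step G X y z hz with h | ⟨h1, _⟩
          · exfalso
            have hne : ¬ ∃ u, G.Adj y u ∧ X u < X y := by
              rintro ⟨w, hw, hlt⟩
              exact absurd (h2 w hw) (not_le.mpr hlt)
            unfold step at hz
            rw [dif_neg hne] at hz
            have : z = y := by simpa using hz
            subst this
            exact lt_irrefl _ h
          · subst h1
            exact ihj u' hz2
      have := key k u hu
      subst this
      exact h2

/-- The ball is always placed at a local minimum of the load. -/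
theorem place_local_min {V : Type} [Fintype V] (G : SimpleGraph V) (X : V → ℕ) (v u : V)
    (hu : u ∈ (place G X v).support) : ∀ w, G.Adj u w → X u ≤ X w :=
  mem_support_steps G X (X v) v u le_rfl hu

/-! ### Expectations -/

/-- Expectation of a function under a `PMF`. -/
noncomputable def Ex {α : Type} (p : PMF α) (f : α → ℝ≥0∞) : ℝ≥0∞ := ∑' a, p a * f a

theorem Ex_pure {α : Type} (a : α) (f : α → ℝ≥0∞) : Ex (PMF.pure a) f = f a := by
  classical
  unfold Ex
  rw [tsum_eq_single a]
  · simp
  · intro b hb
    simp [PMF.pure_apply, hb]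

theorem Ex_bind {α β : Type} (p : PMF α) (q : α → PMF β) (f : β → ℝ≥0∞) :
    Ex (p.bind q) f = Ex p (fun a => Ex (q a) f) := by
  unfold Ex
  simp_rw [PMF.bind_apply, ← ENNReal.tsum_mul_right, ← ENNReal.tsum_mul_left]
  rw [ENNReal.tsum_comm]
  simp_rw [mul_assoc]

theorem Ex_map {α β : Type} (p : PMF α) (g : α → β) (f : β → ℝ≥0∞) :
    Ex (p.map g) f = Ex p (fun a => f (g a)) := by
  rw [← PMF.bind_pure_comp, Ex_bind]
  simp [Ex_pure]

theorem Ex_uniformOfFinset {α : Type} (s : Finset α) (hs : s.Nonempty) (f : α → ℝ≥0∞) :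
    Ex (PMF.uniformOfFinset s hs) f = (∑ a ∈ s, f a) / (s.card : ℝ≥0∞) := by
  classical
  unfold Ex
  rw [tsum_eq_sum (s := s)]
  · rw [div_eq_mul_inv, Finset.sum_mul]
    refine Finset.sum_congr rfl fun a ha => ?_
    rw [PMF.uniformOfFinset_apply_of_mem hs ha, mul_comm]
  · intro b hb
    rw [PMF.uniformOfFinset_apply_of_notMem hs hb, zero_mul]

theorem toOuterMeasure_eq_Ex {α : Type} (p : PMF α) (s : Set α) [DecidablePred (· ∈ s)] :
    p.toOuterMeasure s = Ex p (fun a => if a ∈ s then 1 else 0) := by
  classical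
  rw [PMF.toOuterMeasure_apply]
  unfold Ex
  refine tsum_congr fun a => ?_
  by_cases h : a ∈ s <;> simp [h]

/-! ### Rational computation on `Fin 5` -/

/-- Computable version of `minNbrs`. -/
def minL (adj : Fin 5 → Fin 5 → Bool) (X : Fin 5 → ℕ) (v : Fin 5) : Finset (Fin 5) :=
  Finset.univ.filter (fun u => adj v u = true ∧ ∀ w, adj v w = true → X u ≤ X w)

/-- Computable expectation along the walk of one ball. -/
def walkQ (adj : Fin 5 → Fin 5 → Bool) (X : Fin 5 → ℕ) (f : Fin 5 → ℚ≥0) : ℕ → Fin 5 → ℚ≥0
  | 0, v => f v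
  | k + 1, v => if ∃ u, adj v u = true ∧ X u < X v then
      (∑ u ∈ minL adj X v, walkQ adj X f k u) / ((minL adj X v).card : ℚ≥0)
    else walkQ adj X f k v

/-- Computable one-ball transition operator. -/
def opQ (adj : Fin 5 → Fin 5 → Bool) (f : (Fin 5 → ℕ) → ℚ≥0) (X : Fin 5 → ℕ) : ℚ≥0 :=
  (∑ u, walkQ adj X (fun v => f (Function.update X v (X v + 1))) (X u) u) / 5

/-- The inclusion of the nonnegative rationals in `ℝ≥0∞`. -/
noncomputable def inc (q : ℚ≥0) : ℝ≥0∞ := (((q : NNReal)) : ℝ≥0∞)

theorem inc_sum {ι : Type} (s : Finset ι) (f : ι → ℚ≥0) :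
    inc (∑ i ∈ s, f i) = ∑ i ∈ s, inc (f i) := by
  unfold inc
  rw [← ENNReal.ofNNReal_finsetSum]
  norm_cast

theorem inc_div (q : ℚ≥0) (n : ℕ) (hn : n ≠ 0) :
    inc (q / (n : ℚ≥0)) = inc q / (n : ℝ≥0∞) := by
  unfold inc
  rw [NNRat.cast_div, NNRat.cast_natCast, ENNReal.coe_div (by exact_mod_cast hn)]
  simp

theorem Ex_steps (G : SimpleGraph (Fin 5)) (adj : Fin 5 → Fin 5 → Bool)
    (hadj : ∀ u v, adj u v = true ↔ G.Adj u v) (X : Fin 5 → ℕ) (f : Fin 5 → ℚ≥0) (k : ℕ) :
    ∀ v, Ex (steps G X k v) (fun u => inc (f u)) = inc (walkQ adj X f k v) := by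
  induction k with
  | zero => intro v; simp [steps, walkQ, Ex_pure]
  | succ k ih =>
    intro v
    have hmin : minNbrs G X v = minL adj X v := by
      ext u
      simp [minNbrs, minL, hadj]
    simp only [steps, Ex_bind, walkQ, ih]
    by_cases h : ∃ u, G.Adj v u ∧ X u < X v
    · have h' : ∃ u, adj v u = true ∧ X u < X v := by simpa [hadj] using h
      rw [if_pos h']
      unfold step
      rw [dif_pos h, Ex_uniformOfFinset, inc_div _ _ _, inc_sum, hmin]
      have := minNbrs_nonempty G X v h
      rw [hmin] at this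
      exact (Finset.card_pos.mpr this).ne'
    · have h' : ¬ ∃ u, adj v u = true ∧ X u < X v := by simpa [hadj] using h
      rw [if_neg h']
      unfold step
      rw [dif_neg h, Ex_pure]

theorem Ex_loads (G : SimpleGraph (Fin 5)) (adj : Fin 5 → Fin 5 → Bool)
    (hadj : ∀ u v, adj u v = true ↔ G.Adj u v) (k : ℕ) :
    ∀ f : (Fin 5 → ℕ) → ℚ≥0,
      Ex (loads G k) (fun X => inc (f X)) = inc ((opQ adj)^[k] f 0) := by
  induction k with
  | zero => intro f; simp [loads, Ex_pure]
  | succ k ih =>
    intro f
    have key : ∀ X : Fin 5 → ℕ, Ex ((PMF.uniformOfFintype (Fin 5)).bind fun u =>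
        (place G X u).map fun v => Function.update X v (X v + 1)) (fun X => inc (f X))
        = inc (opQ adj f X) := by
      intro X
      rw [Ex_bind]
      unfold PMF.uniformOfFintype
      rw [Ex_uniformOfFinset]
      unfold opQ
      have h5 : (5 : ℚ≥0) = ((5 : ℕ) : ℚ≥0) := by norm_num
      rw [h5, inc_div _ _ (by norm_num), inc_sum]
      simp only [Ex_map, place, Finset.card_univ, Fintype.card_fin]
      congr 1
      refine Finset.sum_congr rfl fun u _ => ?_
      exact Ex_steps G adj hadj X (fun v => f (Function.update X v (X v + 1))) (X u) u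
    simp only [loads]
    rw [Ex_bind]
    simp only [key]
    rw [ih, Function.iterate_succ_apply]

/-- Indicator of `max load ≥ 2` as a rational function. -/
def ind (X : Fin 5 → ℕ) : ℚ≥0 := if ∃ v, 2 ≤ X v then 1 else 0

theorem probMaxGe_eq (G : SimpleGraph (Fin 5)) (adj : Fin 5 → Fin 5 → Bool)
    (hadj : ∀ u v, adj u v = true ↔ G.Adj u v) (k : ℕ) :
    probMaxGe G k 2 = inc ((opQ adj)^[k] ind 0) := by
  classical
  unfold probMaxGe
  rw [toOuterMeasure_eq_Ex, ← Ex_loads G adj hadj]
  congr 1
  ext X
  have : ((2 : ℤ) ≤ ((Finset.univ.sup X : ℕ) : ℤ)) ↔ ∃ v, 2 ≤ X v := by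
    have h2 : (2 : ℤ) = ((2 : ℕ) : ℤ) := by norm_num
    rw [h2, Nat.cast_le, Finset.le_sup_iff (by norm_num)]
    simp
  simp only [Set.mem_ofPred_eq, this, ind, inc]
  split_ifs <;> simp

/-- Adjacency of `K_{2,3}` with hubs `0, 4`. -/
def adjG (u v : Fin 5) : Bool :=
  (decide (u = 0 ∨ u = 4) && decide (v = 1 ∨ v = 2 ∨ v = 3)) ||
  (decide (v = 0 ∨ v = 4) && decide (u = 1 ∨ u = 2 ∨ u = 3))

/-- Adjacency of `K_{2,3}` plus the edge joining the hubs. -/
def adjG' (u v : Fin 5) : Bool :=
  adjG u v || (decide (u = 0) && decide (v = 4)) || (decide (u = 4) && decide (v = 0))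

/-- The graph `K_{2,3}`. -/
def G0 : SimpleGraph (Fin 5) where
  Adj u v := adjG u v = true
  symm := ⟨by decide⟩
  loopless := ⟨by decide⟩

/-- The graph `K_{2,3}` plus the edge joining the hubs. -/
def G1 : SimpleGraph (Fin 5) where
  Adj u v := adjG' u v = true
  symm := ⟨by decide⟩
  loopless := ⟨by decide⟩

theorem comp0 : (opQ adjG)^[4] ind 0 = 44 / 625 := by decide +kernel

theorem comp1 : (opQ adjG')^[4] ind 0 = 51 / 625 := by decide +kernel

theorem inc_lt {a b : ℚ≥0} (h : a < b) : inc a < inc b := by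
  unfold inc
  rw [ENNReal.coe_lt_coe]
  exact_mod_cast h

/-- Adding an edge can strictly increase the probability that the maximum load is at least
`ℓ`: on the vertex set `Fin 5` there are simple graphs `G ⊂ G'` such that after `4` balls the
probability of maximum load at least `2` is `44/625` for `G` and `51/625` for `G'`. -/
theorem result : ∃ G G' : SimpleGraph (Fin 5), G < G' ∧
    probMaxGe G 4 2 = 44 / 625 ∧ probMaxGe G' 4 2 = 51 / 625 ∧
    probMaxGe G 4 2 < probMaxGe G' 4 2 := by
  have h0 := probMaxGe_eq G0 adjG (fun u v => Iff.rfl) 4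
  have h1 := probMaxGe_eq G1 adjG' (fun u v => Iff.rfl) 4
  rw [comp0] at h0
  rw [comp1] at h1
  refine ⟨G0, G1, ?_, ?_, ?_, ?_⟩
  · refine lt_of_le_of_ne ?_ ?_
    · intro u v huv
      have huv' : adjG u v = true := huv
      show adjG' u v = true
      simp [adjG', huv']
    · intro h
      have h2 : G0.Adj 0 4 ↔ G1.Adj 0 4 := by rw [h]
      have h3 : ¬ (adjG 0 4 = true) := by decide
      have h4 : adjG' 0 4 = true := by decide
      exact h3 (h2.mpr h4)
  · rw [h0]
    have : (44 / 625 : ℚ≥0) = (((44 : ℕ) : ℚ≥0)) / ((625 : ℕ) : ℚ≥0) := by norm_num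
    rw [this, inc_div _ _ (by norm_num)]
    simp [inc]
  · rw [h1]
    have : (51 / 625 : ℚ≥0) = (((51 : ℕ) : ℚ≥0)) / ((625 : ℕ) : ℚ≥0) := by norm_num
    rw [this, inc_div _ _ (by norm_num)]
    simp [inc]
  · rw [h0, h1]
    exact inc_lt (by decide +kernel)

end Pool.Agent.Results.MP_61ae3e_pr.EdgeAddRaisesMax
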